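import Mathlib

/-!
Sums of `r`-th powers of binomial coefficients with twisted weights: divisibility by powers of two.
-/

set_option autoImplicit false

noncomputable section

namespace Pool.Agent.H16S

open Finset

/-- The ring of `2`-adic integers. -/
abbrev R := ℤ_[2]

/-- Congruent to one modulo two. -/
def O (x : R) : Prop := (2 : R) ∣ x - 1

lemma two_nonunit : ¬ IsUnit (2 : R) := by
  have h := PadicInt.p_nonunit (p := 2)
  exact_mod_cast h

lemma two_ne : (2 : R) ≠ 0 := by norm_num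

lemma pow_two_ne (k : ℕ) : (2 : R) ^ k ≠ 0 := pow_ne_zero _ two_ne

lemma O.isUnit {x : R} (h : O x) : IsUnit x := by
  rcases IsLocalRing.isUnit_or_isUnit_one_sub_self x with h1 | h1
  · exact h1
  · exfalso
    apply two_nonunit
    obtain ⟨y, hy⟩ := h
    exact isUnit_of_dvd_unit ⟨-y, by linear_combination -hy⟩ h1

lemma O.one : O 1 := ⟨0, by ring⟩

lemma O.mul {x y : R} (hx : O x) (hy : O y) : O (x * y) := by
  obtain ⟨a, ha⟩ := hx
  obtain ⟨b, hb⟩ := hy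
  exact ⟨a * y + b, by linear_combination y * ha + hb⟩

lemma O.pow {x : R} (hx : O x) (n : ℕ) : O (x ^ n) := by
  induction n with
  | zero => simpa using O.one
  | succ n ih => rw [pow_succ]; exact ih.mul hx

lemma O.sub {x y : R} (hx : O x) (hy : O y) : (2 : R) ∣ x - y := by
  have := dvd_sub hx hy
  have e : x - y = (x - 1) - (y - 1) := by ring
  rwa [e]

lemma O.add {x y : R} (hx : O x) (hy : O y) : (2 : R) ∣ x + y := by
  obtain ⟨a, ha⟩ := hx
  obtain ⟨b, hb⟩ := hy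
  exact ⟨a + b + 1, by linear_combination ha + hb⟩

/-- The inverse. -/
def iv (x : R) : R := Ring.inverse x

lemma O.mul_iv {x : R} (hx : O x) : x * iv x = 1 := Ring.mul_inverse_cancel x hx.isUnit

lemma O.iv_mul {x : R} (hx : O x) : iv x * x = 1 := Ring.inverse_mul_cancel x hx.isUnit

lemma O.iv {x : R} (hx : O x) : O (iv x) := by
  obtain ⟨a, ha⟩ := hx
  have h := O.mul_iv ⟨a, ha⟩
  exact ⟨-(H16S.iv x) * a, by linear_combination (-(H16S.iv x)) * ha + h⟩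

/-- Inverses of congruent elements are congruent. -/
lemma dvd_inv {x y x' y' : R} (hx : x * x' = 1) (hy : y * y' = 1) {k : ℕ}
    (h : (2 : R) ^ k ∣ x - y) : (2 : R) ^ k ∣ x' - y' := by
  obtain ⟨a, ha⟩ := h
  exact ⟨-(x' * y' * a), by linear_combination (-(x' * y')) * ha + y' * hx - x' * hy⟩

lemma dvd_iv {x y : R} (hx : O x) (hy : O y) {k : ℕ} (h : (2 : R) ^ k ∣ x - y) :
    (2 : R) ^ k ∣ iv x - iv y := dvd_inv hx.mul_iv hy.mul_iv h

lemma dvd_pow_le {k l : ℕ} (h : k ≤ l) {x : R} (hx : (2 : R) ^ l ∣ x) : (2 : R) ^ k ∣ x :=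
  (pow_dvd_pow _ h).trans hx

lemma dvd_of_O_mul {x y : R} (hx : O x) {k : ℕ} (h : (2 : R) ^ k ∣ x * y) : (2 : R) ^ k ∣ y := by
  have := Dvd.dvd.mul_left h (iv x)
  rwa [← mul_assoc, hx.iv_mul, one_mul] at this

/-- `(2 i + 1)⁻¹`. -/
def wn (i : ℕ) : R := iv (2 * (i : R) + 1)

lemma O_lin (i : ℕ) : O (2 * (i : R) + 1) := ⟨i, by ring⟩

lemma wn_mul (i : ℕ) : wn i * (2 * (i : R) + 1) = 1 := (O_lin i).iv_mul

lemma O_wn (i : ℕ) : O (wn i) := (O_lin i).iv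

/-- The product of the first odd numbers. -/
def A (i : ℕ) : R := ∏ l ∈ range i, (2 * (l : R) + 1)

/-- Its inverse. -/
def Ai (i : ℕ) : R := ∏ l ∈ range i, wn l

lemma A_succ (i : ℕ) : A (i + 1) = A i * (2 * (i : R) + 1) := by rw [A, prod_range_succ]; rfl
lemma Ai_succ (i : ℕ) : Ai (i + 1) = Ai i * wn i := by rw [Ai, prod_range_succ]; rfl
@[simp] lemma A_zero : A 0 = 1 := by simp [A]
@[simp] lemma Ai_zero : Ai 0 = 1 := by simp [Ai]

lemma Ai_mul_A (i : ℕ) : Ai i * A i = 1 := by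
  induction i with
  | zero => simp
  | succ i ih =>
    rw [A_succ, Ai_succ]
    linear_combination ih * (wn i * (2 * (i : R) + 1)) + wn_mul i

lemma O_A (i : ℕ) : O (A i) := by
  induction i with
  | zero => simpa using O.one
  | succ i ih => rw [A_succ]; exact ih.mul (O_lin i)

lemma O_Ai (i : ℕ) : O (Ai i) := by
  induction i with
  | zero => simpa using O.one
  | succ i ih => rw [Ai_succ]; exact ih.mul (O_wn i)

lemma wn_diff (i t : ℕ) : wn (i + 2 ^ t) - wn i = -(2 ^ (t + 1) * (wn i * wn (i + 2 ^ t))) := by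
  have h1 := wn_mul i
  have h2 := wn_mul (i + 2 ^ t)
  push_cast at h2
  linear_combination (wn i) * h2 - wn (i + 2 ^ t) * h1

lemma wn_congr (i t : ℕ) : (2 : R) ^ (t + 1) ∣ wn (i + 2 ^ t) - wn i := by
  rw [wn_diff]
  exact ⟨-(wn i * wn (i + 2 ^ t)), by ring⟩

/-- Functions with `g (i + 2 ^ t) ≡ c_t g i` modulo `2 ^ (t + 1)`, on `0, …, n`. -/
def H (n : ℕ) (g : ℕ → R) : Prop :=
  (∀ i ≤ n, O (g i)) ∧ ∃ c : ℕ → R, ∀ t i, i + 2 ^ t ≤ n → (2 : R) ^ (t + 1) ∣ g (i + 2 ^ t) - c t * g i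

/-- Functions with `m (i + 2 ^ t) ≡ m i` modulo `2 ^ t`, on `0, …, n`. -/
def Lip (n : ℕ) (m : ℕ → R) : Prop :=
  ∀ t i, i + 2 ^ t ≤ n → (2 : R) ^ t ∣ m (i + 2 ^ t) - m i

lemma H.mul {n : ℕ} {g h : ℕ → R} (hg : H n g) (hh : H n h) : H n (fun i => g i * h i) := by
  obtain ⟨g1, c, hc⟩ := hg
  obtain ⟨h1, d, hd⟩ := hh
  refine ⟨fun i hi => (g1 i hi).mul (h1 i hi), fun t => c t * d t, fun t i hi => ?_⟩
  obtain ⟨a, ha⟩ := hc t i hi
  obtain ⟨b, hb⟩ := hd t i hi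
  exact ⟨a * h (i + 2 ^ t) + c t * g i * b, by
    linear_combination h (i + 2 ^ t) * ha + c t * g i * hb⟩

lemma H.one (n : ℕ) : H n (fun _ => 1) :=
  ⟨fun _ _ => O.one, fun _ => 1, fun _ _ _ => ⟨0, by ring⟩⟩

lemma H.pow {n : ℕ} {g : ℕ → R} (hg : H n g) (r : ℕ) : H n (fun i => g i ^ r) := by
  induction r with
  | zero => simpa using H.one n
  | succ r ih =>
    have := ih.mul hg
    simpa only [← pow_succ] using this

lemma H_Ai (n : ℕ) : H n Ai := by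
  refine ⟨fun i _ => O_Ai i, fun t => Ai (2 ^ t), fun t i _ => ?_⟩
  induction i with
  | zero => exact ⟨0, by simp⟩
  | succ i ih =>
    obtain ⟨a, ha⟩ := ih (by omega)
    obtain ⟨b, hb⟩ := wn_congr i t
    have e : i + 1 + 2 ^ t = i + 2 ^ t + 1 := by ring
    rw [e, Ai_succ, Ai_succ]
    exact ⟨Ai (i + 2 ^ t) * b + wn i * a, by
      linear_combination Ai (i + 2 ^ t) * hb + wn i * ha⟩

lemma H.mono {n m : ℕ} (h : m ≤ n) {g : ℕ → R} (hg : H n g) : H m g := by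
  obtain ⟨g1, c, hc⟩ := hg
  exact ⟨fun i hi => g1 i (hi.trans h), c, fun t i hi => hc t i (hi.trans h)⟩

lemma H.even {n m : ℕ} (h : 2 * m ≤ n) {g : ℕ → R} (hg : H n g) : H m (fun i => g (2 * i)) := by
  obtain ⟨g1, c, hc⟩ := hg
  refine ⟨fun i hi => g1 _ (by omega), fun t => c (t + 1), fun t i hi => ?_⟩
  have h1 := hc (t + 1) (2 * i) (by rw [pow_succ]; omega)
  have e : 2 * (i + 2 ^ t) = 2 * i + 2 ^ (t + 1) := by ring
  show (2 : R) ^ (t + 1) ∣ g (2 * (i + 2 ^ t)) - c (t + 1) * g (2 * i)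
  rw [e]
  exact dvd_pow_le (by omega) h1

lemma H.odd {n m : ℕ} (h : 2 * m + 1 ≤ n) {g : ℕ → R} (hg : H n g) :
    H m (fun i => g (2 * i + 1)) := by
  obtain ⟨g1, c, hc⟩ := hg
  refine ⟨fun i hi => g1 _ (by omega), fun t => c (t + 1), fun t i hi => ?_⟩
  have h1 := hc (t + 1) (2 * i + 1) (by rw [pow_succ]; omega)
  have e : 2 * (i + 2 ^ t) + 1 = 2 * i + 1 + 2 ^ (t + 1) := by ring
  show (2 : R) ^ (t + 1) ∣ g (2 * (i + 2 ^ t) + 1) - c (t + 1) * g (2 * i + 1)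
  rw [e]
  exact dvd_pow_le (by omega) h1

lemma H.lip {n : ℕ} {g m : ℕ → R} (hg : H n g) (hm : Lip n m) :
    H n (fun i => g i * (1 + 2 * m i)) := by
  obtain ⟨g1, c, hc⟩ := hg
  refine ⟨fun i hi => (g1 i hi).mul ⟨m i, by ring⟩, c, fun t i hi => ?_⟩
  obtain ⟨a, ha⟩ := hc t i hi
  obtain ⟨b, hb⟩ := hm t i hi
  refine ⟨a * (1 + 2 * m (i + 2 ^ t)) + c t * g i * b, ?_⟩
  have e : (2 : R) ^ (t + 1) = 2 * 2 ^ t := by ring
  linear_combination (1 + 2 * m (i + 2 ^ t)) * ha + 2 * c t * g i * hb +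
    (c t * g i * b) * (-e)

/-- Splitting off the linear part. -/
lemma split4 {n : ℕ} {f : ℕ → R} {c : R}
    (hf : ∀ t i, i + 2 ^ t ≤ n → (2 : R) ^ (t + 2) ∣ f (i + 2 ^ t) - f i - c * 2 ^ (t + 1)) :
    ∃ m : ℕ → R, Lip n m ∧ ∀ i ≤ n, f i = f 0 + 2 * c * i + 4 * m i := by
  have h1 : ∀ i ≤ n, ∃ m, f i = f 0 + 2 * c * i + 4 * m := by
    intro i
    induction i with
    | zero => intro _; exact ⟨0, by simp⟩
    | succ i ih =>
      intro hi
      obtain ⟨m, hm⟩ := ih (by omega)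
      obtain ⟨a, ha⟩ := hf 0 i (by simpa using hi)
      refine ⟨m + a, ?_⟩
      simp only [pow_zero, zero_add, pow_one] at ha
      push_cast
      linear_combination hm + ha
  choose! m hm using h1
  refine ⟨m, fun t i hi => ?_, hm⟩
  obtain ⟨a, ha⟩ := hf t i hi
  have e1 := hm (i + 2 ^ t) hi
  have e2 := hm i (le_trans (Nat.le_add_right _ _) hi)
  refine ⟨a, ?_⟩
  have h4 : (4 : R) ≠ 0 := by norm_num
  apply mul_left_cancel₀ h4
  push_cast at e1
  linear_combination ha + (-1) * e1 + e2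

end Pool.Agent.H16S

end
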