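import Pool.Agent.H16S.Step
import Pool.Graph.R_seed8.R499.FranelPower

/-!
Divisibility of the weighted sums of binomial power sums by `n * 2 ^ s₂(n)`.
-/

set_option autoImplicit false

noncomputable section

namespace Pool.Agent.H16S

open Finset

/-- The binomial power sum. -/
def f (r n : ℕ) : ℕ := ∑ k ∈ range (n + 1), (n.choose k) ^ r

/-- The weighted sum. -/
def S (r n : ℕ) : ℤ := ∑ k ∈ range n, (-1) ^ (r * k) * (3 * (k : ℤ) + 2) * (f r k : ℤ)

lemma two_n (r n : ℕ) : (2 * (n : ℤ)) ∣ S r n :=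
  Pool.Agent.R499.FranelPower.two_n r n

lemma S_succ (r n : ℕ) : S r (n + 1) = S r n + (-1) ^ (r * n) * (3 * (n : ℤ) + 2) * (f r n : ℤ) := by
  rw [S, sum_range_succ]; rfl

/-- The base coefficients. -/
def th0 (r : ℕ) (i j : ℕ) : R := (-1) ^ (r * (i + j)) * (3 * ((i : R) + j) + 2)

lemma aa_base (r k : ℕ) : aa r (fun _ => 1) (fun _ => 1) (th0 r) k =
    (-1) ^ (r * k) * (3 * (k : R) + 2) * (f r k : R) := by
  rw [aa, Bf, f, one_mul]
  push_cast
  rw [mul_sum]
  refine sum_congr rfl fun i hi => ?_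
  obtain ⟨j, rfl⟩ := Nat.exists_eq_add_of_le (Nat.lt_succ_iff.mp (mem_range.mp hi))
  rw [Nat.add_sub_cancel_left, th0]
  push_cast
  ring

lemma cast_S (r n : ℕ) : ((S r n : ℤ) : R) =
    ∑ k ∈ range n, aa r (fun _ => 1) (fun _ => 1) (th0 r) k := by
  rw [S]
  push_cast
  exact sum_congr rfl fun k _ => (aa_base r k).symm

lemma lev_base (r : ℕ) : Lev (fun _ => 1) (fun _ => 1) (th0 r) where
  Ku _ := by ring
  Hu n := H.one n
  Q := ⟨0, fun s _ => by
    have := D.one s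
    simpa using this⟩
  V t i j := by
    refine ⟨0, ?_⟩
    rw [th0, th0]
    have e : i + 2 ^ t + j = i + (j + 2 ^ t) := by ring
    rw [e]
    push_cast
    ring
  L t i j := by
    rcases t with _ | t
    · simp
    · refine ⟨(-1) ^ (r * (i + j)) * 3, ?_⟩
      rw [th0, th0]
      have e : r * (i + (j + 2 ^ (t + 1))) = r * (i + j) + 2 * (r * 2 ^ t) := by ring
      rw [e, pow_add (-1 : R), pow_mul (-1 : R) 2]
      push_cast
      ring

lemma pow_dvd_cast (k : ℕ) (x : ℤ) : (2 : R) ^ k ∣ (x : R) ↔ (2 : ℤ) ^ k ∣ x := by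
  have := PadicInt.pow_p_dvd_int_iff (p := 2) k x
  exact_mod_cast this

lemma two_part {r : ℕ} (hr : 2 ≤ r) (n e : ℕ) (hn : 0 < n) (he : 2 ^ e ∣ n) :
    (2 : ℤ) ^ (s2 n + e) ∣ S r n := by
  rw [← pow_dvd_cast, cast_S]
  refine level hr n _ _ _ (lev_base r) (fun e => ?_) e he hn
  rw [← cast_S, pow_dvd_cast]
  have := two_n r (2 ^ e)
  rw [pow_succ']
  exact_mod_cast this

lemma s2_le (n : ℕ) : s2 n ≤ n := Nat.digit_sum_le 2 n

lemma f_one (k : ℕ) : f 1 k = 2 ^ k := by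
  rw [f, ← Nat.sum_range_choose]
  simp

lemma S_one (n : ℕ) : S 1 (n + 1) = (-1) ^ n * (2 ^ (n + 1) * ((n : ℤ) + 1)) := by
  induction n with
  | zero => simp [S, f]
  | succ n ih =>
    rw [S_succ, ih, f_one]
    push_cast
    ring

lemma f_two (k : ℕ) : f 2 k = (2 * k).choose k := by
  rw [f, ← Nat.sum_range_choose_sq]
  

lemma S_two (n : ℕ) : S 2 n = n * ((2 * n).choose n : ℤ) := by
  induction n with
  | zero => simp [S]
  | succ n ih =>
    rw [S_succ, ih, f_two]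
    have h := Nat.succ_mul_centralBinom_succ n
    rw [Nat.centralBinom, Nat.centralBinom] at h
    have h2 : ((n : ℤ) + 1) * ((2 * (n + 1)).choose (n + 1) : ℤ) =
      2 * (2 * n + 1) * ((2 * n).choose n : ℤ) := by exact_mod_cast h
    have e : (-1 : ℤ) ^ (2 * n) = 1 := by rw [pow_mul]; simp
    rw [e]
    push_cast
    linear_combination -h2

theorem main_dvd {r : ℕ} (hr : 1 ≤ r) (n : ℕ) : ((n : ℤ) * 2 ^ (s2 n)) ∣ S r n := by
  rcases Nat.eq_zero_or_pos n with rfl | hn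
  · simp [S]
  rcases Nat.lt_or_ge 1 r with hr2 | hr1
  · obtain ⟨e, m, hm, rfl⟩ := Nat.exists_eq_two_pow_mul_odd hn.ne'
    have h1 := two_part hr2 (2 ^ e * m) e hn (dvd_mul_right _ _)
    have h2 : ((m : ℕ) : ℤ) ∣ S r (2 ^ e * m) := by
      refine dvd_trans ?_ (two_n r _)
      push_cast
      exact ⟨2 * 2 ^ e, by ring⟩
    have hc : IsCoprime ((2 : ℤ) ^ (s2 (2 ^ e * m) + e)) ((m : ℕ) : ℤ) := by
      apply IsCoprime.pow_left
      rw [Int.isCoprime_iff_gcd_eq_one]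
      have := (Nat.coprime_two_left).mpr hm
      exact_mod_cast this
    have h3 := hc.mul_dvd h1 h2
    have e1 : (((2 ^ e * m : ℕ) : ℤ) * 2 ^ (s2 (2 ^ e * m))) =
        (2 : ℤ) ^ (s2 (2 ^ e * m) + e) * ((m : ℕ) : ℤ) := by
      rw [pow_add]
      push_cast
      ring
    rw [e1]
    exact h3
  · obtain rfl : r = 1 := by omega
    obtain ⟨N, rfl⟩ : ∃ N, n = N + 1 := ⟨n - 1, by omega⟩
    rw [S_one]
    apply Dvd.dvd.mul_left
    rw [mul_comm]
    push_cast
    exact mul_dvd_mul_right (pow_dvd_pow _ (s2_le _)) _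

lemma padic_central (n : ℕ) : padicValNat 2 ((2 * n).choose n) = s2 n := by
  have h := sub_one_mul_padicValNat_choose_eq_sub_sum_digits (p := 2) (k := n) (n := 2 * n)
    (by omega)
  have e : 2 * n - n = n := by omega
  rw [e] at h
  have h2 : (Nat.digits 2 (2 * n)).sum = (Nat.digits 2 n).sum := s2_even n
  rw [h2] at h
  rw [s2]
  omega

theorem gcd_eq (n : ℕ) : Int.gcd (S 1 n) (S 2 n) = n * 2 ^ (s2 n) := by
  apply Nat.dvd_antisymm
  · rcases Nat.eq_zero_or_pos n with rfl | hn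
    · simp [S]
    have h1 : (S 1 n).natAbs = n * 2 ^ n := by
      obtain ⟨N, rfl⟩ : ∃ N, n = N + 1 := ⟨n - 1, by omega⟩
      rw [S_one, Int.natAbs_mul, Int.natAbs_pow]
      simp only [Int.natAbs_neg, Int.natAbs_one, one_pow, one_mul]
      rw [mul_comm]
      have : (((N : ℤ) + 1) * 2 ^ (N + 1)) = (((N + 1) * 2 ^ (N + 1) : ℕ) : ℤ) := by push_cast; ring
      rw [this, Int.natAbs_natCast]
    have h2 : (S 2 n).natAbs = n * (2 * n).choose n := by
      rw [S_two]
      have : ((n : ℤ) * ((2 * n).choose n : ℤ)) = ((n * (2 * n).choose n : ℕ) : ℤ) := by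
        push_cast; ring
      rw [this, Int.natAbs_natCast]
    rw [Int.gcd, h1, h2, Nat.gcd_mul_left]
    apply Nat.mul_dvd_mul_left
    obtain ⟨k, hk, hk'⟩ := (Nat.dvd_prime_pow Nat.prime_two).mp (Nat.gcd_dvd_left (2 ^ n) ((2 * n).choose n))
    rw [hk']
    apply pow_dvd_pow
    rw [← padic_central]
    have h3 : 2 ^ k ∣ (2 * n).choose n := by
      rw [← hk']; exact Nat.gcd_dvd_right _ _
    exact (padicValNat_dvd_iff_le (Nat.choose_pos (by omega)).ne').mp h3
  · have h1 := main_dvd (le_refl 1) n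
    have h2 := main_dvd (r := 2) (by norm_num) n
    rw [← Int.natCast_dvd_natCast]
    push_cast
    exact Int.dvd_coe_gcd h1 h2

end Pool.Agent.H16S

end
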