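import Pool.Agent.H16S.Main

/-!
The level structure: partial sums of `K(k) ∑ C(k,i)^r u(i) u(k-i) θ(i,k-i)`.
-/

set_option autoImplicit false

noncomputable section

namespace Pool.Agent.H16S

open Finset

/-- Increments over `2 ^ t` constant modulo `2 ^ (t + 3)` and divisible by `2 ^ (t + k)`. -/
def Y (k : ℕ) (f : ℕ → R) : Prop :=
  ∀ t, ∃ κ : R, (2 : R) ^ (t + k) ∣ κ ∧ ∀ i, (2 : R) ^ (t + 3) ∣ f (i + 2 ^ t) - f i - κ

lemma Y.mono {f : ℕ → R} (h : Y 2 f) : Y 1 f := by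
  intro t
  obtain ⟨κ, h1, h2⟩ := h t
  exact ⟨κ, dvd_pow_le (by omega) h1, h2⟩

lemma Y.const4 {f : ℕ → R} (h : Y 2 f) (i : ℕ) : (4 : R) ∣ f i - f 0 := by
  obtain ⟨κ, ⟨a, ha⟩, h2⟩ := h 0
  induction i with
  | zero => simp
  | succ i ih =>
    obtain ⟨b, hb⟩ := h2 i
    obtain ⟨c, hc⟩ := ih
    simp only [pow_zero, zero_add] at ha hb
    exact ⟨a + 2 * b + c, by linear_combination hb + ha + hc⟩

lemma Y.mul {k : ℕ} (hk : k = 1 ∨ k = 2) {f g : ℕ → R} (of : ∀ i, O (f i)) (hf : Y k f)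
    (hg : Y 2 g) : Y k (fun i => f i * g i) := by
  intro t
  obtain ⟨κ, ⟨a, ha⟩, h2⟩ := hf t
  obtain ⟨l, ⟨b, hb⟩, h3⟩ := hg t
  have e3 : (2 : R) ^ (t + 3) = 2 ^ t * 8 := by ring
  have e2 : (2 : R) ^ (t + 2) = 2 ^ t * 4 := by ring
  refine ⟨l + g 0 * κ, ?_, fun i => ?_⟩
  · apply dvd_add
    · rcases hk with rfl | rfl
      · exact dvd_pow_le (by omega) ⟨b, hb⟩
      · exact ⟨b, hb⟩
    · exact Dvd.dvd.mul_left ⟨a, ha⟩ _
  · obtain ⟨x, hx⟩ := h2 i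
    obtain ⟨y, hy⟩ := h3 i
    obtain ⟨z, hz⟩ := hg.const4 i
    obtain ⟨w, hw⟩ := of (i + 2 ^ t)
    have e1 : (2 : R) ∣ 2 ^ k := dvd_pow_self _ (by omega)
    obtain ⟨k', hk'⟩ := e1
    have ek : (2 : R) ^ (t + k) = 2 ^ t * (2 * k') := by rw [pow_add, hk']
    rw [e3] at hx hy ⊢
    rw [e2] at hb
    rw [ek] at ha
    refine ⟨f (i + 2 ^ t) * y + g i * x + w * b + k' * a * z, ?_⟩
    linear_combination f (i + 2 ^ t) * hy + g i * hx + l * hw + 2 * w * hb + κ * hz + 4 * z * ha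

lemma Y.one : Y 2 (fun _ => 1) := fun t => ⟨0, dvd_zero _, fun i => ⟨0, by ring⟩⟩

lemma Y.pow {f : ℕ → R} (of : ∀ i, O (f i)) (hf : Y 2 f) (m : ℕ) : Y 2 (fun i => f i ^ m) := by
  induction m with
  | zero => simpa using Y.one
  | succ m ih =>
    have := Y.mul (Or.inr rfl) (fun i => (of i).pow m) ih hf
    simpa only [← pow_succ] using this

/-- The product `w w'` is constant modulo four. -/
lemma wn_wn (t i : ℕ) : (4 : R) ∣ wn i * wn (i + 2 ^ t) - wn 0 * wn (0 + 2 ^ t) := by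
  have h1 := wn_mul i
  have h2 := wn_mul (i + 2 ^ t)
  have h3 := wn_mul 0
  have h4 := wn_mul (0 + 2 ^ t)
  have h5 : (wn i * wn (i + 2 ^ t)) * ((2 * (i : R) + 1) * (2 * ((i + 2 ^ t : ℕ) : R) + 1)) = 1 := by
    linear_combination (2 * ((i + 2 ^ t : ℕ) : R) + 1) * wn (i + 2 ^ t) * h1 + h2
  have h6 : (wn 0 * wn (0 + 2 ^ t)) * ((2 * ((0 : ℕ) : R) + 1) * (2 * ((0 + 2 ^ t : ℕ) : R) + 1)) = 1 := by
    linear_combination (2 * ((0 + 2 ^ t : ℕ) : R) + 1) * wn (0 + 2 ^ t) * h3 + h4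
  have h7 := dvd_inv (k := 2) (x := (2 * (i : R) + 1) * (2 * ((i + 2 ^ t : ℕ) : R) + 1))
    (y := (2 * ((0 : ℕ) : R) + 1) * (2 * ((0 + 2 ^ t : ℕ) : R) + 1))
    (x' := wn i * wn (i + 2 ^ t)) (y' := wn 0 * wn (0 + 2 ^ t))
    (by rw [mul_comm]; exact h5) (by rw [mul_comm]; exact h6)
    ⟨(i : R) ^ 2 + i + 2 ^ t * i, by push_cast; ring⟩
  have e : (2 : R) ^ 2 = 4 := by norm_num
  rwa [e] at h7

lemma Y_wn : Y 1 wn := by
  intro t
  refine ⟨-(2 ^ (t + 1) * (wn 0 * wn (0 + 2 ^ t))), ⟨-(wn 0 * wn (0 + 2 ^ t)), by ring⟩, fun i => ?_⟩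
  obtain ⟨a, ha⟩ := wn_wn t i
  rw [wn_diff]
  refine ⟨-a, ?_⟩
  have e3 : (2 : R) ^ (t + 3) = 2 ^ (t + 1) * 4 := by ring
  rw [e3]
  linear_combination (-(2 ^ (t + 1))) * ha

lemma Y_wn2 : Y 2 (fun i => wn i ^ 2) := by
  intro t
  have key : ∀ i, wn (i + 2 ^ t) ^ 2 - wn i ^ 2 =
      -(2 ^ (t + 2) * (wn i ^ 2 * wn (i + 2 ^ t) * (1 - 2 ^ t * wn (i + 2 ^ t)))) := by
    intro i
    have h := wn_diff i t
    have e : wn (i + 2 ^ t) = wn i + -(2 ^ (t + 1) * (wn i * wn (i + 2 ^ t))) := by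
      linear_combination h
    have e' : wn (i + 2 ^ t) ^ 2 - wn i ^ 2 =
      (wn (i + 2 ^ t) - wn i) * (2 * wn i - 2 ^ (t + 1) * (wn i * wn (i + 2 ^ t))) := by
      linear_combination (wn (i + 2 ^ t) - wn i) * e
    rw [e', h]
    ring
  have e3 : (2 : R) ^ (t + 3) = 2 ^ (t + 2) * 2 := by ring
  rcases t with _ | t
  · refine ⟨0, dvd_zero _, fun i => ?_⟩
    show _ ∣ wn (i + 2 ^ 0) ^ 2 - wn i ^ 2 - 0
    rw [key i, e3]
    obtain ⟨a, ha⟩ := O_wn (i + 2 ^ 0)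
    exact ⟨wn i ^ 2 * wn (i + 2 ^ 0) * a, by
      linear_combination (2 ^ (0 + 2) * wn i ^ 2 * wn (i + 2 ^ 0)) * ha⟩
  · refine ⟨2 ^ (t + 1 + 2), dvd_refl _, fun i => ?_⟩
    show _ ∣ wn (i + 2 ^ (t + 1)) ^ 2 - wn i ^ 2 - 2 ^ (t + 1 + 2)
    rw [key i, e3]
    obtain ⟨a, ha⟩ := ((O_wn i).pow 2).mul (O_wn (i + 2 ^ (t + 1)))
    refine ⟨-a - 1 + wn i ^ 2 * wn (i + 2 ^ (t + 1)) * 2 ^ t * wn (i + 2 ^ (t + 1)), ?_⟩
    rw [pow_succ (2 : R) t]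
    linear_combination (-(2 ^ t * 2 * 2 ^ 2)) * ha

lemma Y_wnpow (r : ℕ) : Y 1 (fun i => wn i ^ r) := by
  rcases Nat.even_or_odd' r with ⟨m, rfl | rfl⟩
  · have h := Y_wn2.pow (fun i => (O_wn i).pow 2) m
    have e : (fun i => wn i ^ (2 * m)) = fun i => (wn i ^ 2) ^ m := by
      funext i; rw [pow_mul]
    rw [e]
    exact h.mono
  · have h := Y_wn2.pow (fun i => (O_wn i).pow 2) m
    have e : (fun i => wn i ^ (2 * m + 1)) = fun i => wn i * (wn i ^ 2) ^ m := by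
      funext i; rw [pow_succ, pow_mul]; ring
    rw [e]
    exact Y.mul (Or.inl rfl) O_wn Y_wn h

/-- The data at one level. -/
structure Lev (u K : ℕ → R) (θ : ℕ → ℕ → R) : Prop where
  Ku : ∀ i, K i * u i = 1
  Hu : ∀ n, H n u
  Q : ∃ ε : R, ∀ s i, D s ε (u (i + 1) * K i) (u (i + 2 ^ s + 1) * K (i + 2 ^ s))
  V : ∀ t i j, (2 : R) ^ (t + 2) ∣ θ (i + 2 ^ t) j - θ i (j + 2 ^ t)
  L : ∀ t i j, (2 : R) ^ t ∣ θ i (j + 2 ^ t) - θ i j

/-- The term. -/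
def aa (r : ℕ) (u K : ℕ → R) (θ : ℕ → ℕ → R) (M : ℕ) : R :=
  K M * Bf r M (fun i j => u i * u j * θ i j)

lemma Lev.Ou {u K : ℕ → R} {θ : ℕ → ℕ → R} (h : Lev u K θ) (i : ℕ) : O (u i) := (h.Hu i).1 i le_rfl

lemma Lev.OK {u K : ℕ → R} {θ : ℕ → ℕ → R} (h : Lev u K θ) (i : ℕ) : O (K i) := by
  obtain ⟨a, ha⟩ := h.Ou i
  exact ⟨-(K i * a), by linear_combination (-(K i)) * ha + h.Ku i⟩

lemma Lev.even {u K : ℕ → R} {θ : ℕ → ℕ → R} (h : Lev u K θ) (h0 : (2 : R) ∣ θ 0 0) :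
    ∀ i j k : ℕ, i + j = 2 * k → (2 : R) ∣ θ i j := by
  have h1 : ∀ k, (2 : R) ∣ θ 0 (2 * k) := by
    intro k
    induction k with
    | zero => simpa using h0
    | succ k ih =>
      have := h.L 1 0 (2 * k)
      rw [pow_one] at this
      have e : 2 * k + 2 = 2 * (k + 1) := by ring
      rw [pow_one, e] at this
      have := dvd_add this ih
      rwa [sub_add_cancel] at this
  intro i
  induction i with
  | zero => intro j k hj; rw [zero_add] at hj; rw [hj]; exact h1 k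
  | succ i ih =>
    intro j k hj
    have h2 := h.V 0 i j
    rw [pow_zero] at h2
    have h3 := dvd_pow_le (k := 1) (by omega) h2
    rw [pow_one] at h3
    have h4 := dvd_add h3 (ih (j + 1) k (by omega))
    rwa [sub_add_cancel] at h4

/-- (C1): terms of even index. -/
lemma c1 {r : ℕ} (hr : 1 ≤ r) {u K : ℕ → R} {θ : ℕ → ℕ → R} (h : Lev u K θ)
    (h0 : (2 : R) ∣ θ 0 0) (m : ℕ) : (2 : R) ^ (s2 (2 * m) + 1) ∣ aa r u K θ (2 * m) := by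
  obtain ⟨μ, hμ, hμ'⟩ := split4 (n := 2 * m) (c := 0) (f := fun i => θ i (2 * m - i)) (by
    intro t i hi
    have h1 := h.V t i (2 * m - (i + 2 ^ t))
    have e : ∀ w : ℕ, i + w ≤ 2 * m → 2 * m - (i + w) + w = 2 * m - i := fun w hw => by omega
    rw [e _ hi] at h1
    rw [zero_mul, sub_zero]
    exact h1)
  have b0 := main r hr (2 * m) u u (h.Hu _) (h.Hu _)
  have b1 := main_lip r hr (2 * m) u u μ (h.Hu _) (h.Hu _) hμ
  have e0 : Bf r (2 * m) (fun i j => u i * u j * θ i j) =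
      θ 0 (2 * m) * Bf r (2 * m) (fun i j => u i * u j) +
      4 * Bf r (2 * m) (fun i j => u i * μ i * u j) := by
    rw [← Bf_mul, ← Bf_mul, ← Bf_add]
    apply Bf_congr
    intro i j hij
    have := hμ' i (by omega)
    have e : 2 * m - i = j := by omega
    simp only [e, Nat.sub_zero] at this
    rw [this]
    ring
  rw [aa]
  apply Dvd.dvd.mul_left
  rw [e0]
  obtain ⟨a, ha⟩ := h.even h0 0 (2 * m) m (by ring)
  obtain ⟨x, hx⟩ := b0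
  obtain ⟨y, hy⟩ := b1
  refine ⟨a * x + y, ?_⟩
  rw [pow_succ]
  linear_combination (Bf r (2 * m) (fun i j => u i * u j)) * ha + 2 * a * hx + 2 * hy

/-- The next level. -/
def u1 (r : ℕ) (u : ℕ → R) (i : ℕ) : R := u (2 * i) * Ai i ^ r
/-- The next level. -/
def K1 (r : ℕ) (K : ℕ → R) (i : ℕ) : R := K (2 * i) * A i ^ r
/-- The ratio `y`. -/
def yy (r : ℕ) (u K : ℕ → R) (i : ℕ) : R := wn i ^ r * (u (2 * i + 1) * K (2 * i))
/-- The inverse ratio. -/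
def yi (r : ℕ) (u K : ℕ → R) (i : ℕ) : R := (2 * (i : R) + 1) ^ r * (K (2 * i + 1) * u (2 * i))
/-- The bracket. -/
def Th (r : ℕ) (u K : ℕ → R) (θ : ℕ → ℕ → R) (i j : ℕ) : R :=
  θ (2 * i) (2 * j) + (2 * (j : R)) ^ r * (yy r u K i * (u (2 * j - 1) * K (2 * j)) *
    θ (2 * i + 1) (2 * j - 1)) +
  yi r u K (i + j) * (yy r u K j * θ (2 * i) (2 * j + 1) + yy r u K i * θ (2 * i + 1) (2 * j))

/-- (C2). -/
lemma c2 {r : ℕ} (hr : 1 ≤ r) {u K : ℕ → R} {θ : ℕ → ℕ → R} (h : Lev u K θ) (m : ℕ) :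
    aa r u K θ (2 * m) + aa r u K θ (2 * m + 1) = aa r (u1 r u) (K1 r K) (Th r u K θ) m := by
  rw [aa, aa, aa, Bf_even' r m hr, Bf_odd, ← Bf_mul, ← Bf_mul, ← Bf_mul, ← Bf_mul, ← Bf_mul,
    ← Bf_add]
  apply Bf_congr
  intro i j hij
  have hi := h.Ku (2 * i)
  have hj := h.Ku (2 * j)
  have hm := h.Ku (2 * (i + j))
  rw [← hij]
  simp only [Th, u1, K1, yy, yi]
  rw [A_succ, Ai_succ, Ai_succ]
  push_cast
  have e1 : K (2 * (i + j)) * (A (i + j) ^ r * (Ai i ^ r * Ai j ^ r * (u (2 * i) * u (2 * j) * θ (2 * i) (2 * j)) + (2 * (j : R)) ^ r * ((Ai i * wn i) ^ r * Ai j ^ r * (u (2 * i + 1) * u (2 * j - 1) * θ (2 * i + 1) (2 * j - 1))))) = K (2 * (i + j)) * A (i + j) ^ r * (u (2 * i) * Ai i ^ r * (u (2 * j) * Ai j ^ r) * (θ (2 * i) (2 * j) + (2 * (j : R)) ^ r * (wn i ^ r * (u (2 * i + 1) * K (2 * i)) * (u (2 * j - 1) * K (2 * j)) *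
    θ (2 * i + 1) (2 * j - 1)))) := by
    rw [mul_pow (Ai i) (wn i)]
    linear_combination (-(K (2 * (i + j)) * A (i + j) ^ r * Ai i ^ r * Ai j ^ r * (2 * (j : R)) ^ r * wn i ^ r * u (2 * i + 1) * u (2 * j - 1) * θ (2 * i + 1) (2 * j - 1))) * (hi * (K (2 * j) * u (2 * j)) + hj)
  have e2 : K (2 * (i + j) + 1) * ((A (i + j) * (2 * ((i : R) + j) + 1)) ^ r *
      (Ai i ^ r * (Ai j * wn j) ^ r * (u (2 * i) * u (2 * j + 1) * θ (2 * i) (2 * j + 1)) +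
        (Ai i * wn i) ^ r * Ai j ^ r * (u (2 * i + 1) * u (2 * j) * θ (2 * i + 1) (2 * j)))) =
      K (2 * (i + j)) * A (i + j) ^ r * (u (2 * i) * Ai i ^ r * (u (2 * j) * Ai j ^ r) *
        ((2 * ((i : R) + j) + 1) ^ r * (K (2 * (i + j) + 1) * u (2 * (i + j))) *
        (wn j ^ r * (u (2 * j + 1) * K (2 * j)) * θ (2 * i) (2 * j + 1) +
          wn i ^ r * (u (2 * i + 1) * K (2 * i)) * θ (2 * i + 1) (2 * j)))) := by
    rw [mul_pow (Ai i) (wn i), mul_pow (Ai j) (wn j), mul_pow (A (i + j))]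
    linear_combination (-(K (2 * (i + j) + 1) * A (i + j) ^ r * (2 * ((i : R) + j) + 1) ^ r *
      Ai i ^ r * Ai j ^ r)) *
      ((K (2 * j) * u (2 * j) * (wn j ^ r * u (2 * i) * u (2 * j + 1) * θ (2 * i) (2 * j + 1)) +
        K (2 * i) * u (2 * i) * (wn i ^ r * u (2 * i + 1) * u (2 * j) * θ (2 * i + 1) (2 * j))) * hm +
        (wn j ^ r * u (2 * i) * u (2 * j + 1) * θ (2 * i) (2 * j + 1)) * hj +
        (wn i ^ r * u (2 * i + 1) * u (2 * j) * θ (2 * i + 1) (2 * j)) * hi)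
  linear_combination e1 + e2

end Pool.Agent.H16S

end
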