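import Pool.Agent.H16S.Basic

/-!
The main divisibility: `2 ^ s₂(m)` divides `∑ C(m,i)^r g(i) h(m-i)`.
-/

set_option autoImplicit false

noncomputable section

namespace Pool.Agent.H16S

open Finset

/-- The sum of the binary digits of `n`. -/
def s2 (n : ℕ) : ℕ := (Nat.digits 2 n).sum

lemma s2_zero : s2 0 = 0 := by simp [s2]

lemma s2_even (m : ℕ) : s2 (2 * m) = s2 m := by
  rcases Nat.eq_zero_or_pos m with rfl | h
  · simp
  · rw [s2, s2, Nat.digits_def' (by norm_num) (by omega)]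
    have h1 : 2 * m % 2 = 0 := by omega
    have h2 : 2 * m / 2 = m := by omega
    rw [h1, h2]
    simp

lemma s2_odd (m : ℕ) : s2 (2 * m + 1) = s2 m + 1 := by
  rw [s2, s2, Nat.digits_def' (by norm_num) (by omega)]
  have h1 : (2 * m + 1) % 2 = 1 := by omega
  have h2 : (2 * m + 1) / 2 = m := by omega
  rw [h1, h2, List.sum_cons]
  ring

lemma s2_succ (p : ℕ) : s2 (p + 1) ≤ s2 p + 1 := by
  induction p using Nat.strong_induction_on with
  | _ p ih =>
    rcases Nat.even_or_odd' p with ⟨q, rfl | rfl⟩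
    · rw [s2_odd, s2_even]
    · have e : 2 * q + 1 + 1 = 2 * (q + 1) := by ring
      rw [e, s2_even, s2_odd]
      have := ih q (by omega)
      omega

lemma fact_even (i : ℕ) : ((2 * i).factorial : R) = 2 ^ i * (i.factorial : R) * A i := by
  induction i with
  | zero => simp
  | succ i ih =>
    have e : 2 * (i + 1) = 2 * i + 1 + 1 := by ring
    rw [e, Nat.factorial_succ, Nat.factorial_succ, Nat.factorial_succ, A_succ]
    push_cast
    rw [ih]
    ring

lemma fact_odd (i : ℕ) : ((2 * i + 1).factorial : R) = 2 ^ i * (i.factorial : R) * A (i + 1) := by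
  rw [Nat.factorial_succ, A_succ]
  push_cast
  rw [fact_even]
  ring

lemma fact_ne (i : ℕ) : (i.factorial : R) ≠ 0 := by
  exact_mod_cast Nat.factorial_ne_zero i

lemma ch_fact (i j : ℕ) :
    (((i + j).choose i : ℕ) : R) * (i.factorial : R) * (j.factorial : R) = ((i + j).factorial : R) := by
  have h := Nat.choose_mul_factorial_mul_factorial (Nat.le_add_right i j)
  rw [Nat.add_sub_cancel_left] at h
  exact_mod_cast h

lemma ch_ee (i j : ℕ) : (((2 * (i + j)).choose (2 * i) : ℕ) : R) =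
    (((i + j).choose i : ℕ) : R) * A (i + j) * (Ai i * Ai j) := by
  have h1 := ch_fact (2 * i) (2 * j)
  have e : 2 * i + 2 * j = 2 * (i + j) := by ring
  rw [e, fact_even, fact_even, fact_even, ← ch_fact i j] at h1
  have h2 : (2 : R) ^ (i + j) * (i.factorial : R) * (j.factorial : R) ≠ 0 :=
    mul_ne_zero (mul_ne_zero (pow_two_ne _) (fact_ne _)) (fact_ne _)
  have h3 : (((2 * (i + j)).choose (2 * i) : ℕ) : R) * (A i * A j) =
      (((i + j).choose i : ℕ) : R) * A (i + j) := by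
    apply mul_left_cancel₀ h2
    rw [pow_add] at h1 ⊢
    linear_combination h1
  have hi := Ai_mul_A i
  have hj := Ai_mul_A j
  linear_combination (Ai i * Ai j) * h3 -
    (((2 * (i + j)).choose (2 * i) : ℕ) : R) * (A j * Ai j) * hi -
    (((2 * (i + j)).choose (2 * i) : ℕ) : R) * hj

lemma ch_eo (i j : ℕ) : (((2 * (i + j) + 1).choose (2 * i) : ℕ) : R) =
    (((i + j).choose i : ℕ) : R) * A (i + j + 1) * (Ai i * Ai (j + 1)) := by
  have h1 := ch_fact (2 * i) (2 * j + 1)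
  have e : 2 * i + (2 * j + 1) = 2 * (i + j) + 1 := by ring
  rw [e, fact_even, fact_odd, fact_odd, ← ch_fact i j] at h1
  have h2 : (2 : R) ^ (i + j) * (i.factorial : R) * (j.factorial : R) ≠ 0 :=
    mul_ne_zero (mul_ne_zero (pow_two_ne _) (fact_ne _)) (fact_ne _)
  have h3 : (((2 * (i + j) + 1).choose (2 * i) : ℕ) : R) * (A i * A (j + 1)) =
      (((i + j).choose i : ℕ) : R) * A (i + j + 1) := by
    apply mul_left_cancel₀ h2
    rw [pow_add] at h1 ⊢
    linear_combination h1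
  have hi := Ai_mul_A i
  have hj := Ai_mul_A (j + 1)
  linear_combination (Ai i * Ai (j + 1)) * h3 -
    (((2 * (i + j) + 1).choose (2 * i) : ℕ) : R) * (A (j + 1) * Ai (j + 1)) * hi -
    (((2 * (i + j) + 1).choose (2 * i) : ℕ) : R) * hj

lemma ch_oe (i j : ℕ) : (((2 * (i + j) + 1).choose (2 * i + 1) : ℕ) : R) =
    (((i + j).choose i : ℕ) : R) * A (i + j + 1) * (Ai (i + 1) * Ai j) := by
  have h1 := ch_fact (2 * i + 1) (2 * j)
  have e : 2 * i + 1 + 2 * j = 2 * (i + j) + 1 := by ring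
  rw [e, fact_even, fact_odd, fact_odd, ← ch_fact i j] at h1
  have h2 : (2 : R) ^ (i + j) * (i.factorial : R) * (j.factorial : R) ≠ 0 :=
    mul_ne_zero (mul_ne_zero (pow_two_ne _) (fact_ne _)) (fact_ne _)
  have h3 : (((2 * (i + j) + 1).choose (2 * i + 1) : ℕ) : R) * (A (i + 1) * A j) =
      (((i + j).choose i : ℕ) : R) * A (i + j + 1) := by
    apply mul_left_cancel₀ h2
    rw [pow_add] at h1 ⊢
    linear_combination h1
  have hi := Ai_mul_A (i + 1)
  have hj := Ai_mul_A j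
  linear_combination (Ai (i + 1) * Ai j) * h3 -
    (((2 * (i + j) + 1).choose (2 * i + 1) : ℕ) : R) * (A j * Ai j) * hi -
    (((2 * (i + j) + 1).choose (2 * i + 1) : ℕ) : R) * hj

/-- The odd part in an even row, in terms of the row `q - 1`. -/
lemma ch_oo (i j : ℕ) : (((2 * (i + j + 1)).choose (2 * i + 1) : ℕ) : R) =
    (((i + j).choose i : ℕ) : R) * (2 * ((i + j + 1 : ℕ) : R)) * A (i + j + 1) *
      (Ai (i + 1) * Ai (j + 1)) := by
  have h1 := ch_fact (2 * i + 1) (2 * j + 1)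
  have e : 2 * i + 1 + (2 * j + 1) = 2 * (i + j + 1) := by ring
  rw [e, fact_even, fact_odd, fact_odd, Nat.factorial_succ (i + j)] at h1
  push_cast at h1
  rw [← ch_fact i j] at h1
  have h2 : (2 : R) ^ (i + j) * (i.factorial : R) * (j.factorial : R) ≠ 0 :=
    mul_ne_zero (mul_ne_zero (pow_two_ne _) (fact_ne _)) (fact_ne _)
  have h3 : (((2 * (i + j + 1)).choose (2 * i + 1) : ℕ) : R) * (A (i + 1) * A (j + 1)) =
      (((i + j).choose i : ℕ) : R) * (2 * ((i + j + 1 : ℕ) : R)) * A (i + j + 1) := by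
    apply mul_left_cancel₀ h2
    push_cast
    rw [pow_succ, pow_add] at h1
    rw [pow_add]
    linear_combination h1
  have hi := Ai_mul_A (i + 1)
  have hj := Ai_mul_A (j + 1)
  linear_combination (Ai (i + 1) * Ai (j + 1)) * h3 -
    (((2 * (i + j + 1)).choose (2 * i + 1) : ℕ) : R) * (A (j + 1) * Ai (j + 1)) * hi -
    (((2 * (i + j + 1)).choose (2 * i + 1) : ℕ) : R) * hj

/-- The odd part in an even row, in terms of the same row `q`. -/
lemma ch_oo' (i j : ℕ) : (((2 * (i + (j + 1))).choose (2 * i + 1) : ℕ) : R) =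
    (((i + (j + 1)).choose i : ℕ) : R) * (2 * ((j + 1 : ℕ) : R)) * A (i + (j + 1)) *
      (Ai (i + 1) * Ai (j + 1)) := by
  have h1 := ch_fact (2 * i + 1) (2 * j + 1)
  have e : 2 * i + 1 + (2 * j + 1) = 2 * (i + (j + 1)) := by ring
  rw [e, fact_even, fact_odd, fact_odd, ← ch_fact i (j + 1), Nat.factorial_succ j] at h1
  push_cast at h1
  have h2 : (2 : R) ^ (i + j) * (i.factorial : R) * (j.factorial : R) ≠ 0 :=
    mul_ne_zero (mul_ne_zero (pow_two_ne _) (fact_ne _)) (fact_ne _)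
  have h3 : (((2 * (i + (j + 1))).choose (2 * i + 1) : ℕ) : R) * (A (i + 1) * A (j + 1)) =
      (((i + (j + 1)).choose i : ℕ) : R) * (2 * ((j + 1 : ℕ) : R)) * A (i + (j + 1)) := by
    apply mul_left_cancel₀ h2
    push_cast
    rw [pow_add, pow_succ] at h1
    rw [pow_add]
    linear_combination h1
  have hi := Ai_mul_A (i + 1)
  have hj := Ai_mul_A (j + 1)
  linear_combination (Ai (i + 1) * Ai (j + 1)) * h3 -
    (((2 * (i + (j + 1))).choose (2 * i + 1) : ℕ) : R) * (A (j + 1) * Ai (j + 1)) * hi -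
    (((2 * (i + (j + 1))).choose (2 * i + 1) : ℕ) : R) * hj

/-- The sum of `C(m,i)^r φ(i, m - i)`. -/
def Bf (r m : ℕ) (φ : ℕ → ℕ → R) : R :=
  ∑ i ∈ range (m + 1), ((m.choose i : ℕ) : R) ^ r * φ i (m - i)

lemma Bf_congr {r m : ℕ} {φ ψ : ℕ → ℕ → R} (h : ∀ i j, i + j = m → φ i j = ψ i j) :
    Bf r m φ = Bf r m ψ := by
  refine sum_congr rfl fun i hi => ?_
  rw [h i (m - i) (by have := mem_range.mp hi; omega)]

lemma Bf_add (r m : ℕ) (φ ψ : ℕ → ℕ → R) :
    Bf r m (fun i j => φ i j + ψ i j) = Bf r m φ + Bf r m ψ := by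
  rw [Bf, Bf, Bf, ← sum_add_distrib]
  exact sum_congr rfl fun i _ => by ring

lemma Bf_mul (r m : ℕ) (c : R) (φ : ℕ → ℕ → R) :
    Bf r m (fun i j => c * φ i j) = c * Bf r m φ := by
  rw [Bf, Bf, mul_sum]
  exact sum_congr rfl fun i _ => by ring

lemma sum_split (F : ℕ → R) (q : ℕ) :
    ∑ i ∈ range (2 * q + 1), F i = ∑ i ∈ range (q + 1), F (2 * i) + ∑ i ∈ range q, F (2 * i + 1) := by
  induction q with
  | zero => simp
  | succ q ih =>
    rw [show 2 * (q + 1) + 1 = 2 * q + 1 + 1 + 1 by ring, sum_range_succ, sum_range_succ, ih,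
      sum_range_succ (fun i => F (2 * i)) (q + 1), sum_range_succ (fun i => F (2 * i + 1)) q]
    rw [show 2 * q + 1 + 1 = 2 * (q + 1) by ring]
    ring

lemma sum_split' (F : ℕ → R) (q : ℕ) :
    ∑ i ∈ range (2 * q + 1 + 1), F i = ∑ i ∈ range (q + 1), (F (2 * i) + F (2 * i + 1)) := by
  rw [sum_range_succ, sum_split, sum_add_distrib, sum_range_succ (fun i => F (2 * i + 1)) q]
  ring

lemma ee_part (r q : ℕ) (φ : ℕ → ℕ → R) :
    ∑ i ∈ range (q + 1), (((2 * q).choose (2 * i) : ℕ) : R) ^ r * φ (2 * i) (2 * q - 2 * i) =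
      A q ^ r * Bf r q (fun i j => Ai i ^ r * Ai j ^ r * φ (2 * i) (2 * j)) := by
  rw [Bf, mul_sum]
  refine sum_congr rfl fun i hi => ?_
  obtain ⟨j, rfl⟩ := Nat.exists_eq_add_of_le (Nat.lt_succ_iff.mp (mem_range.mp hi))
  have e1 : 2 * (i + j) - 2 * i = 2 * j := by omega
  have e2 : i + j - i = j := by omega
  rw [e1, e2, ch_ee]
  ring

lemma oo_part (r q : ℕ) (φ : ℕ → ℕ → R) :
    ∑ i ∈ range (q + 1), (((2 * (q + 1)).choose (2 * i + 1) : ℕ) : R) ^ r *
      φ (2 * i + 1) (2 * (q + 1) - (2 * i + 1)) =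
      A (q + 1) ^ r * ((2 * ((q + 1 : ℕ) : R)) ^ r *
        Bf r q (fun i j => Ai (i + 1) ^ r * Ai (j + 1) ^ r * φ (2 * i + 1) (2 * j + 1))) := by
  rw [Bf, mul_sum, mul_sum]
  refine sum_congr rfl fun i hi => ?_
  obtain ⟨j, rfl⟩ := Nat.exists_eq_add_of_le (Nat.lt_succ_iff.mp (mem_range.mp hi))
  have e1 : 2 * (i + j + 1) - (2 * i + 1) = 2 * j + 1 := by omega
  have e2 : i + j - i = j := by omega
  rw [e1, e2, ch_oo]
  ring

lemma oo_part' (r q : ℕ) (hr : 1 ≤ r) (φ : ℕ → ℕ → R) :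
    ∑ i ∈ range q, (((2 * q).choose (2 * i + 1) : ℕ) : R) ^ r *
      φ (2 * i + 1) (2 * q - (2 * i + 1)) =
      A q ^ r * Bf r q (fun i j => (2 * (j : R)) ^ r *
        (Ai (i + 1) ^ r * Ai j ^ r * φ (2 * i + 1) (2 * j - 1))) := by
  rw [Bf, sum_range_succ]
  have h0 : ((q.choose q : ℕ) : R) ^ r * ((2 * ((q - q : ℕ) : R)) ^ r *
        (Ai (q + 1) ^ r * Ai (q - q) ^ r * φ (2 * q + 1) (2 * (q - q) - 1))) = 0 := by
    rw [Nat.sub_self, Nat.cast_zero, mul_zero, zero_pow (by omega)]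
    ring
  rw [h0, add_zero, mul_sum]
  refine sum_congr rfl fun i hi => ?_
  obtain ⟨j, rfl⟩ := Nat.exists_eq_add_of_lt (mem_range.mp hi)
  have e1 : 2 * (i + j + 1) - (2 * i + 1) = 2 * (j + 1) - 1 := by omega
  have e2 : i + j + 1 - i = j + 1 := by omega
  rw [e1, e2, add_assoc i j 1, ch_oo']
  ring

lemma Bf_even (r q : ℕ) (φ : ℕ → ℕ → R) :
    Bf r (2 * (q + 1)) φ = A (q + 1) ^ r *
      (Bf r (q + 1) (fun i j => Ai i ^ r * Ai j ^ r * φ (2 * i) (2 * j)) +
       (2 * ((q + 1 : ℕ) : R)) ^ r *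
        Bf r q (fun i j => Ai (i + 1) ^ r * Ai (j + 1) ^ r * φ (2 * i + 1) (2 * j + 1))) := by
  rw [Bf, sum_split (fun i => (((2 * (q + 1)).choose i : ℕ) : R) ^ r * φ i (2 * (q + 1) - i)),
    ee_part, oo_part]
  ring

lemma Bf_even' (r q : ℕ) (hr : 1 ≤ r) (φ : ℕ → ℕ → R) :
    Bf r (2 * q) φ = A q ^ r * Bf r q (fun i j => Ai i ^ r * Ai j ^ r * φ (2 * i) (2 * j) +
       (2 * (j : R)) ^ r * (Ai (i + 1) ^ r * Ai j ^ r * φ (2 * i + 1) (2 * j - 1))) := by
  rw [Bf, sum_split (fun i => (((2 * q).choose i : ℕ) : R) ^ r * φ i (2 * q - i)),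
    ee_part, oo_part' r q hr, Bf_add]
  ring

lemma Bf_odd (r q : ℕ) (φ : ℕ → ℕ → R) :
    Bf r (2 * q + 1) φ = A (q + 1) ^ r *
      Bf r q (fun i j => Ai i ^ r * Ai (j + 1) ^ r * φ (2 * i) (2 * j + 1) +
        Ai (i + 1) ^ r * Ai j ^ r * φ (2 * i + 1) (2 * j)) := by
  rw [Bf, sum_split' (fun i => (((2 * q + 1).choose i : ℕ) : R) ^ r * φ i (2 * q + 1 - i)), Bf,
    mul_sum]
  refine sum_congr rfl fun i hi => ?_
  obtain ⟨j, rfl⟩ := Nat.exists_eq_add_of_le (Nat.lt_succ_iff.mp (mem_range.mp hi))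
  have e1 : 2 * (i + j) + 1 - (2 * i + 1) = 2 * j := by omega
  have e2 : i + j - i = j := by omega
  have e3 : 2 * (i + j) + 1 - 2 * i = 2 * j + 1 := by omega
  rw [e1, e2, e3, ch_eo, ch_oe]
  ring

/-- `x' ≡ x + c 2 ^ (t + 1)` modulo `2 ^ (t + 2)`. -/
def D (t : ℕ) (c x x' : R) : Prop := (2 : R) ^ (t + 2) ∣ x' - x - c * 2 ^ (t + 1)

lemma D.mul {t : ℕ} {c d x x' y y' : R} (hx' : O x') (hy : O y) (h1 : D t c x x')
    (h2 : D t d y y') : D t (c + d) (x * y) (x' * y') := by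
  obtain ⟨a, ha⟩ := h1
  obtain ⟨b, hb⟩ := h2
  obtain ⟨p, hp⟩ := hx'
  obtain ⟨q, hq⟩ := hy
  refine ⟨x' * b + y * a + d * p + c * q, ?_⟩
  have e : (2 : R) ^ (t + 2) = 2 * 2 ^ (t + 1) := by ring
  rw [e] at ha hb ⊢
  linear_combination x' * hb + y * ha + d * 2 ^ (t + 1) * hp + c * 2 ^ (t + 1) * hq

lemma D.one (t : ℕ) : D t 0 1 1 := ⟨0, by ring⟩

lemma D.pow {t : ℕ} {c x x' : R} (hx' : O x') (hx : O x) (h : D t c x x') (r : ℕ) :
    D t (r * c) (x ^ r) (x' ^ r) := by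
  induction r with
  | zero => simpa using D.one t
  | succ r ih =>
    have := D.mul (hx'.pow r) hx ih h
    rw [← pow_succ, ← pow_succ] at this
    have e : (r : R) * c + c = ((r + 1 : ℕ) : R) * c := by push_cast; ring
    rwa [e] at this

lemma D_wn (i t : ℕ) : D t 1 (wn i) (wn (i + 2 ^ t)) := by
  obtain ⟨a, ha⟩ := (O_wn i).mul (O_wn (i + 2 ^ t))
  refine ⟨-a - 1, ?_⟩
  rw [wn_diff]
  have e : (2 : R) ^ (t + 2) = 2 * 2 ^ (t + 1) := by ring
  rw [e]
  linear_combination (-(2 ^ (t + 1))) * ha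

lemma D_ratio {n : ℕ} {g : ℕ → R} (hg : H (2 * n + 1) g) (t i : ℕ) (hi : i + 2 ^ t ≤ n) :
    D t 0 (g (2 * i + 1) * iv (g (2 * i)))
      (g (2 * (i + 2 ^ t) + 1) * iv (g (2 * (i + 2 ^ t)))) := by
  obtain ⟨g1, c, hc⟩ := hg
  have e : 2 * (i + 2 ^ t) = 2 * i + 2 ^ (t + 1) := by ring
  have e' : 2 * (i + 2 ^ t) + 1 = 2 * i + 1 + 2 ^ (t + 1) := by ring
  have hp : 2 ^ (t + 1) = 2 * 2 ^ t := by ring
  have o1 : O (g (2 * i)) := g1 _ (by omega)
  have o2 : O (g (2 * (i + 2 ^ t))) := g1 _ (by omega)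
  have h1 := hc (t + 1) (2 * i) (by omega)
  have h2 := hc (t + 1) (2 * i + 1) (by omega)
  rw [← e] at h1
  rw [← e'] at h2
  obtain ⟨a, ha⟩ := h1
  obtain ⟨b, hb⟩ := h2
  have i1 := o1.mul_iv
  have i2 := o2.mul_iv
  show (2 : R) ^ (t + 2) ∣ _
  apply dvd_of_O_mul o2
  refine ⟨b - a * (g (2 * i + 1) * iv (g (2 * i))), ?_⟩
  linear_combination (g (2 * (i + 2 ^ t) + 1)) * i2 + hb - (g (2 * i + 1) * iv (g (2 * i))) * ha -
    c (t + 1) * g (2 * i + 1) * i1

/-- The combined ratio. -/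
def sg (r : ℕ) (g : ℕ → R) (i : ℕ) : R := wn i ^ r * (g (2 * i + 1) * iv (g (2 * i)))

lemma O_sg {r n : ℕ} {g : ℕ → R} (hg : H (2 * n + 1) g) (i : ℕ) (hi : i ≤ n) : O (sg r g i) :=
  ((O_wn i).pow r).mul ((hg.1 _ (by omega)).mul (hg.1 _ (by omega)).iv)

lemma le_of_add_pow {i t n : ℕ} (h : i + 2 ^ t ≤ n) : i ≤ n := le_trans (Nat.le_add_right _ _) h

lemma D_sg {r n : ℕ} {g : ℕ → R} (hg : H (2 * n + 1) g) (t i : ℕ) (hi : i + 2 ^ t ≤ n) :
    D t r (sg r g i) (sg r g (i + 2 ^ t)) := by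
  have h1 := (D_wn i t).pow (O_wn _) (O_wn _) r
  have h2 := D_ratio hg t i hi
  have h3 := le_of_add_pow hi
  have := D.mul ((O_wn (i + 2 ^ t)).pow r) ?_ h1 h2
  · simpa [sg] using this
  · exact (hg.1 _ (by omega)).mul (hg.1 _ (by omega)).iv

lemma H_wn (n : ℕ) : H n wn :=
  ⟨fun i _ => O_wn i, fun _ => 1, fun t i _ => by rw [one_mul]; exact wn_congr i t⟩

lemma sg_mul {r : ℕ} {g : ℕ → R} (i : ℕ) (h : O (g (2 * i))) :
    Ai (i + 1) ^ r * g (2 * i + 1) = Ai i ^ r * g (2 * i) * sg r g i := by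
  rw [Ai_succ, sg]
  have := h.mul_iv
  rw [mul_pow]
  linear_combination (-(Ai i ^ r * wn i ^ r * g (2 * i + 1))) * this

theorem main (r : ℕ) (hr : 1 ≤ r) : ∀ (m : ℕ) (g h : ℕ → R), H m g → H m h →
    (2 : R) ^ (s2 m) ∣ Bf r m (fun i j => g i * h j) := by
  intro m
  induction m using Nat.strong_induction_on with
  | _ m ih =>
    intro g h hg hh
    rcases Nat.even_or_odd' m with ⟨q, rfl | rfl⟩
    · rcases q with _ | q
      · simp [s2]
      · have key : ∀ f : ℕ → R, H (2 * (q + 1)) f →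
            H q (fun i => Ai (i + 1) ^ r * f (2 * i + 1)) := by
          intro f hf
          have e : (fun i => Ai (i + 1) ^ r * f (2 * i + 1)) =
              fun i => Ai i ^ r * (wn i ^ r * f (2 * i + 1)) := by
            funext i; rw [Ai_succ]; ring
          rw [e]
          exact ((H_Ai _).pow r).mul (((H_wn _).pow r).mul (hf.odd (by omega)))
        rw [Bf_even, s2_even]
        apply Dvd.dvd.mul_left
        apply dvd_add
        · have h1 := ih (q + 1) (by omega) (fun i => Ai i ^ r * g (2 * i))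
            (fun j => Ai j ^ r * h (2 * j))
            (((H_Ai _).pow r).mul (hg.even (by omega))) (((H_Ai _).pow r).mul (hh.even (by omega)))
          rw [Bf_congr (ψ := fun i j => Ai i ^ r * g (2 * i) * (Ai j ^ r * h (2 * j)))]
          · exact h1
          · intro i j _; ring
        · have h1 := ih q (by omega) (fun i => Ai (i + 1) ^ r * g (2 * i + 1))
            (fun j => Ai (j + 1) ^ r * h (2 * j + 1)) (key g hg) (key h hh)
          rw [Bf_congr (ψ := fun i j => Ai (i + 1) ^ r * g (2 * i + 1) *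
              (Ai (j + 1) ^ r * h (2 * j + 1)))]
          · obtain ⟨r', rfl⟩ := Nat.exists_eq_add_of_le hr
            have h2 := mul_dvd_mul (dvd_refl (2 : R)) h1
            rw [← pow_succ'] at h2
            have h3 := dvd_pow_le (s2_succ q) h2
            rw [pow_add, pow_one]
            obtain ⟨c, hc⟩ := h3
            exact ⟨((q + 1 : ℕ) : R) * (2 * ((q + 1 : ℕ) : R)) ^ r' * c, by
              linear_combination (((q + 1 : ℕ) : R) * (2 * ((q + 1 : ℕ) : R)) ^ r') * hc⟩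
          · intro i j _; ring
    · rw [Bf_odd, s2_odd]
      apply Dvd.dvd.mul_left
      obtain ⟨μ, hμ, hμ'⟩ := split4 (fun t i hi => D_sg (r := r) hg t i hi)
      obtain ⟨ν, hν, hν'⟩ := split4 (fun t i hi => D_sg (r := r) hh t i hi)
      have Hg : H q (fun i => Ai i ^ r * g (2 * i)) := ((H_Ai _).pow r).mul (hg.even (by omega))
      have Hh : H q (fun i => Ai i ^ r * h (2 * i)) := ((H_Ai _).pow r).mul (hh.even (by omega))
      have b0 := ih q (by omega) _ _ Hg Hh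
      have b1 := ih q (by omega) _ _ (Hg.lip hμ) Hh
      have b2 := ih q (by omega) _ _ Hg (Hh.lip hν)
      have e0 : Bf r q (fun i j => Ai i ^ r * Ai (j + 1) ^ r * (g (2 * i) * h (2 * j + 1)) +
          Ai (i + 1) ^ r * Ai j ^ r * (g (2 * i + 1) * h (2 * j))) =
          (sg r g 0 + sg r h 0 + 2 * (r : R) * (q : R)) *
            Bf r q (fun i j => Ai i ^ r * g (2 * i) * (Ai j ^ r * h (2 * j))) +
          4 * Bf r q (fun i j => Ai i ^ r * g (2 * i) * μ i * (Ai j ^ r * h (2 * j))) +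
          4 * Bf r q (fun i j => Ai i ^ r * g (2 * i) * (Ai j ^ r * h (2 * j) * ν j)) := by
        rw [← Bf_mul, ← Bf_mul, ← Bf_mul, ← Bf_add, ← Bf_add]
        apply Bf_congr
        intro i j hij
        have k1 := sg_mul (r := r) i (hg.1 (2 * i) (by omega))
        have k2 := sg_mul (r := r) j (hh.1 (2 * j) (by omega))
        rw [hμ' i (by omega)] at k1
        rw [hν' j (by omega)] at k2
        have e : (q : R) = i + j := by rw [← hij]; push_cast; ring
        rw [e]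
        linear_combination (Ai i ^ r * g (2 * i)) * k2 + (Ai j ^ r * h (2 * j)) * k1
      have e1 : Bf r q (fun i j => Ai i ^ r * g (2 * i) * (1 + 2 * μ i) *
          (Ai j ^ r * h (2 * j))) = Bf r q (fun i j => Ai i ^ r * g (2 * i) *
            (Ai j ^ r * h (2 * j))) + 2 * Bf r q (fun i j => Ai i ^ r * g (2 * i) * μ i *
              (Ai j ^ r * h (2 * j))) := by
        rw [← Bf_mul, ← Bf_add]
        apply Bf_congr
        intro i j _
        ring
      have e2 : Bf r q (fun i j => Ai i ^ r * g (2 * i) *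
          (Ai j ^ r * h (2 * j) * (1 + 2 * ν j))) = Bf r q (fun i j => Ai i ^ r * g (2 * i) *
            (Ai j ^ r * h (2 * j))) + 2 * Bf r q (fun i j => Ai i ^ r * g (2 * i) *
              (Ai j ^ r * h (2 * j) * ν j)) := by
        rw [← Bf_mul, ← Bf_add]
        apply Bf_congr
        intro i j _
        ring
      rw [e0]

      rw [e1] at b1
      rw [e2] at b2
      obtain ⟨x0, hx0⟩ := b0
      obtain ⟨x1, hx1⟩ := b1
      obtain ⟨x2, hx2⟩ := b2
      obtain ⟨y, hy⟩ := (O_sg (r := r) hg 0 (by omega)).add (O_sg (r := r) hh 0 (by omega))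
      refine ⟨(y + r * q) * x0 + (x1 - x0) + (x2 - x0), ?_⟩
      rw [pow_succ]
      linear_combination (Bf r q (fun i j => Ai i ^ r * g (2 * i) * (Ai j ^ r * h (2 * j)))) * hy +
        2 * (y + r * q) * hx0 + 2 * hx1 + 2 * hx2 - 4 * hx0

theorem main_lip (r : ℕ) (hr : 1 ≤ r) (m : ℕ) (g h μ : ℕ → R) (hg : H m g) (hh : H m h)
    (hμ : Lip m μ) : (2 : R) ^ (s2 m) ∣ 2 * Bf r m (fun i j => g i * μ i * h j) := by
  have b0 := main r hr m g h hg hh
  have b1 := main r hr m _ _ (hg.lip hμ) hh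
  have e1 : Bf r m (fun i j => g i * (1 + 2 * μ i) * h j) =
      Bf r m (fun i j => g i * h j) + 2 * Bf r m (fun i j => g i * μ i * h j) := by
    rw [← Bf_mul, ← Bf_add]
    apply Bf_congr
    intro i j _
    ring

  rw [e1] at b1
  have := dvd_sub b1 b0
  rwa [add_sub_cancel_left] at this

end Pool.Agent.H16S

end
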