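import Pool.Agent.H16S.Level

/-!
The step from one level to the next.
-/

set_option autoImplicit false

noncomputable section

namespace Pool.Agent.H16S

open Finset

/-- Congruence. -/
def Cg (M x y : R) : Prop := M ∣ x - y

lemma Cg.rfl {M x : R} : Cg M x x := ⟨0, by ring⟩
lemma Cg.add {M x y x' y' : R} (h : Cg M x y) (h' : Cg M x' y') : Cg M (x + x') (y + y') := by
  obtain ⟨a, ha⟩ := h
  obtain ⟨b, hb⟩ := h'
  exact ⟨a + b, by linear_combination ha + hb⟩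
lemma Cg.mul {M x y x' y' : R} (h : Cg M x y) (h' : Cg M x' y') : Cg M (x * x') (y * y') := by
  obtain ⟨a, ha⟩ := h
  obtain ⟨b, hb⟩ := h'
  exact ⟨x * b + y' * a, by linear_combination x * hb + y' * ha⟩
lemma Cg.pow {M x y : R} (h : Cg M x y) (n : ℕ) : Cg M (x ^ n) (y ^ n) :=
  h.trans (sub_dvd_pow_sub_pow x y n)
lemma Cg.le {k l : ℕ} (hk : k ≤ l) {x y : R} (h : Cg (2 ^ l) x y) : Cg (2 ^ k) x y :=
  dvd_pow_le hk h

lemma two_mul_pow (j t : ℕ) : 2 * (j + 2 ^ t) = 2 * j + 2 ^ (t + 1) := by ring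

lemma Y_delta {u K : ℕ → R} {θ : ℕ → ℕ → R} (h : Lev u K θ) :
    Y 2 (fun i => u (2 * i + 1) * K (2 * i)) := by
  intro t
  obtain ⟨ε, hε⟩ := h.Q
  refine ⟨ε * 2 ^ (t + 2), ⟨ε, by ring⟩, fun i => ?_⟩
  have h1 := hε (t + 1) (2 * i)
  rw [D] at h1
  show _ ∣ u (2 * (i + 2 ^ t) + 1) * K (2 * (i + 2 ^ t)) - _ - _
  rw [two_mul_pow]
  exact h1

lemma O_yy {r : ℕ} {u K : ℕ → R} {θ : ℕ → ℕ → R} (h : Lev u K θ) (i : ℕ) : O (yy r u K i) :=
  ((O_wn i).pow r).mul ((h.Ou _).mul (h.OK _))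

lemma Y_yy {r : ℕ} {u K : ℕ → R} {θ : ℕ → ℕ → R} (h : Lev u K θ) : Y 1 (yy r u K) :=
  Y.mul (Or.inl rfl) (fun i => (O_wn i).pow r) (Y_wnpow r) (Y_delta h)

lemma yy_cg {r : ℕ} {u K : ℕ → R} {θ : ℕ → ℕ → R} (h : Lev u K θ) (t i : ℕ) :
    Cg (2 ^ (t + 1)) (yy r u K (i + 2 ^ t)) (yy r u K i) := by
  obtain ⟨κ, h1, h2⟩ := Y_yy (r := r) h t
  have := dvd_add (dvd_pow_le (k := t + 1) (by omega) (h2 i)) h1
  rwa [sub_add_cancel] at this

lemma yi_mul {r : ℕ} {u K : ℕ → R} {θ : ℕ → ℕ → R} (h : Lev u K θ) (i : ℕ) :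
    yy r u K i * yi r u K i = 1 := by
  rw [yy, yi]
  have h1 := h.Ku (2 * i)
  have h2 := h.Ku (2 * i + 1)
  have h3 : wn i ^ r * (2 * (i : R) + 1) ^ r = 1 := by rw [← mul_pow, wn_mul, one_pow]
  linear_combination (K (2 * i) * u (2 * i) * (K (2 * i + 1) * u (2 * i + 1))) * h3 +
    (K (2 * i + 1) * u (2 * i + 1)) * h1 + h2

lemma yi_cg {r : ℕ} {u K : ℕ → R} {θ : ℕ → ℕ → R} (h : Lev u K θ) (t i : ℕ) :
    Cg (2 ^ (t + 1)) (yi r u K (i + 2 ^ t)) (yi r u K i) :=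
  dvd_inv (yi_mul h _) (yi_mul h _) (yy_cg h t i)

/-- `η`. -/
def et (u K : ℕ → R) (j : ℕ) : R := u (2 * j - 1) * K (2 * j)

lemma et_cg {u K : ℕ → R} {θ : ℕ → ℕ → R} (h : Lev u K θ) (t j : ℕ) :
    Cg (2 ^ (t + 2)) (et u K (j + 1 + 2 ^ t)) (et u K (j + 1)) := by
  obtain ⟨ε, hε⟩ := h.Q
  have h1 := hε (t + 1) (2 * j + 1)
  rw [D] at h1
  have inv : ∀ j : ℕ, (u (2 * j + 1 + 1) * K (2 * j + 1)) * et u K (j + 1) = 1 := by
    intro j
    have e1 : 2 * (j + 1) - 1 = 2 * j + 1 := by omega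
    have e2 : 2 * (j + 1) = 2 * j + 1 + 1 := by ring
    rw [et, e1, e2]
    have k1 := h.Ku (2 * j + 1)
    have k2 := h.Ku (2 * j + 1 + 1)
    linear_combination (K (2 * j + 1) * u (2 * j + 1)) * k2 + k1
  have i1 := inv j
  have i2 := inv (j + 2 ^ t)
  have e3 : 2 * (j + 2 ^ t) + 1 = 2 * j + 1 + 2 ^ (t + 1) := by ring
  have e4 : j + 2 ^ t + 1 = j + 1 + 2 ^ t := by ring
  rw [e3, e4] at i2
  refine dvd_inv i2 i1 ?_
  have := dvd_add (dvd_pow_le (k := t + 2) (by omega) h1)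
    (⟨ε, by ring⟩ : (2 : R) ^ (t + 2) ∣ ε * 2 ^ (t + 1 + 1))
  rwa [sub_add_cancel] at this

lemma V2 {u K : ℕ → R} {θ : ℕ → ℕ → R} (h : Lev u K θ) (i j : ℕ) :
    (4 : R) ∣ θ (i + 1) j - θ i (j + 1) := by
  have h2 := h.V 0 i j
  rw [pow_zero] at h2
  have e : (2 : R) ^ (0 + 2) = 4 := by norm_num
  rwa [e] at h2

lemma Th_even {r : ℕ} (hr : 1 ≤ r) {u K : ℕ → R} {θ : ℕ → ℕ → R} (h : Lev u K θ)
    (h0 : (2 : R) ∣ θ 0 0) (i j : ℕ) : (2 : R) ∣ Th r u K θ i j := by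
  rw [Th]
  apply dvd_add
  · apply dvd_add
    · exact h.even h0 _ _ (i + j) (by ring)
    · apply Dvd.dvd.mul_right
      exact (dvd_mul_right 2 _).trans (dvd_pow_self _ (by omega))
  · apply Dvd.dvd.mul_left
    obtain ⟨a, ha⟩ := O_yy (r := r) h i
    obtain ⟨b, hb⟩ := O_yy (r := r) h j
    obtain ⟨c, hc⟩ := V2 h (2 * i) (2 * j)
    refine ⟨b * θ (2 * i) (2 * j + 1) + a * θ (2 * i + 1) (2 * j) + 2 * c +
      θ (2 * i) (2 * j + 1), ?_⟩
    linear_combination θ (2 * i) (2 * j + 1) * hb + θ (2 * i + 1) (2 * j) * ha + hc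

/-- The middle term. -/
def Xx (r : ℕ) (u K : ℕ → R) (θ : ℕ → ℕ → R) (i j : ℕ) : R :=
  (2 * (j : R)) ^ r * (yy r u K i * (u (2 * j - 1) * K (2 * j)) * θ (2 * i + 1) (2 * j - 1))

lemma Xx_zero {r : ℕ} (hr : 1 ≤ r) {u K : ℕ → R} {θ : ℕ → ℕ → R} (i : ℕ) :
    Xx r u K θ i 0 = 0 := by
  rw [Xx, Nat.cast_zero, mul_zero, zero_pow (by omega), zero_mul]

lemma Xx_L {r : ℕ} (hr : 1 ≤ r) {u K : ℕ → R} {θ : ℕ → ℕ → R} (h : Lev u K θ) (t i j : ℕ) :
    Cg (2 ^ (t + 1)) (Xx r u K θ i (j + 2 ^ t)) (Xx r u K θ i j) := by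
  rcases j with _ | j
  · rw [Xx_zero hr, Cg, sub_zero, Xx, zero_add]
    apply Dvd.dvd.mul_right
    have e : (2 : R) ^ (t + 1) = 2 * ((2 ^ t : ℕ) : R) := by push_cast; ring
    rw [e]
    exact dvd_pow_self _ (by omega)
  · rw [Xx, Xx]
    refine Cg.mul (Cg.pow ⟨1, by push_cast; ring⟩ r) (Cg.mul (Cg.mul Cg.rfl
      (Cg.le (by omega) (et_cg h t j))) ?_)
    have h1 := h.L (t + 1) (2 * i + 1) (2 * (j + 1) - 1)
    have e : ∀ w : ℕ, 2 * (j + 1 + w) - 1 = 2 * (j + 1) - 1 + 2 * w := fun w => by omega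
    rw [e]
    have e2 : 2 * 2 ^ t = 2 ^ (t + 1) := by ring
    rw [e2]
    exact h1

lemma Th_L {r : ℕ} (hr : 1 ≤ r) {u K : ℕ → R} {θ : ℕ → ℕ → R} (h : Lev u K θ) (t i j : ℕ) :
    Cg (2 ^ (t + 1)) (Th r u K θ i (j + 2 ^ t)) (Th r u K θ i j) := by
  have e1 : 2 * (j + 2 ^ t) + 1 = 2 * j + 1 + 2 ^ (t + 1) := by ring
  have h1 := h.L (t + 1) (2 * i) (2 * j)
  have h2 := h.L (t + 1) (2 * i) (2 * j + 1)
  have h3 := h.L (t + 1) (2 * i + 1) (2 * j)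
  rw [← two_mul_pow] at h1 h3
  rw [← e1] at h2
  have h4 := yi_cg (r := r) h t (i + j)
  rw [add_assoc] at h4
  exact ((Cg.add h1 (Xx_L hr h t i j)).add
    (Cg.mul h4 (Cg.add (Cg.mul (yy_cg h t j) h2) (Cg.mul Cg.rfl h3))))

lemma Xx_V {r : ℕ} (hr : 2 ≤ r) {u K : ℕ → R} {θ : ℕ → ℕ → R} (h : Lev u K θ)
    (h0 : (2 : R) ∣ θ 0 0) (t i j : ℕ) :
    Cg (2 ^ (t + 3)) (Xx r u K θ (i + 2 ^ t) j) (Xx r u K θ i (j + 2 ^ t)) := by
  obtain ⟨r', rfl⟩ := Nat.exists_eq_add_of_le hr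
  rcases j with _ | j
  · rw [Xx_zero (by omega), Cg, zero_sub, Xx, zero_add, dvd_neg]
    have h1 : (2 : R) ∣ θ (2 * i + 1) (2 * 2 ^ t - 1) := by
      have e : ∀ w : ℕ, 1 ≤ w → 2 * i + 1 + (2 * w - 1) = 2 * (i + w) := fun w hw => by omega
      exact h.even h0 _ _ _ (e (2 ^ t) (Nat.one_le_two_pow))
    obtain ⟨a, ha⟩ := h1
    rw [ha]
    refine ⟨2 ^ t * (2 * ((2 ^ t : ℕ) : R)) ^ r' * (yy (2 + r') u K i *
      (u (2 * 2 ^ t - 1) * K (2 * 2 ^ t))) * a, ?_⟩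
    rw [pow_add (2 * ((2 ^ t : ℕ) : R)) 2 r']
    push_cast
    ring
  · have hT := h.V (t + 1) (2 * i + 1) (2 * (j + 1) - 1)
    have e : ∀ w : ℕ, 2 * (j + 1) - 1 + 2 * w = 2 * (j + 1 + w) - 1 := fun w => by omega
    have e2 : 2 ^ (t + 1) = 2 * 2 ^ t := by ring
    rw [e2, e] at hT
    have e3 : 2 * i + 1 + 2 * 2 ^ t = 2 * (i + 2 ^ t) + 1 := by ring
    rw [e3] at hT
    have h1 : (2 : R) ∣ θ (2 * i + 1) (2 * (j + 1 + 2 ^ t) - 1) := by
      have e : ∀ w : ℕ, 2 * i + 1 + (2 * (j + 1 + w) - 1) = 2 * (i + j + 1 + w) :=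
        fun w => by omega
      exact h.even h0 _ _ _ (e (2 ^ t))
    have hc : Cg (2 ^ (t + 1)) (yy (2 + r') u K (i + 2 ^ t) * et u K (j + 1))
        (yy (2 + r') u K i * et u K (j + 1 + 2 ^ t)) := by
      refine Cg.mul (yy_cg h t i) ?_
      have := Cg.le (k := t + 1) (by omega) (et_cg h t j)
      obtain ⟨a, ha⟩ := this
      exact ⟨-a, by linear_combination -ha⟩
    have hp : Cg (2 ^ t) (((j + 1 : ℕ) : R) ^ (2 + r')) (((j + 1 + 2 ^ t : ℕ) : R) ^ (2 + r')) :=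
      Cg.pow ⟨-1, by push_cast; ring⟩ _
    rw [Xx, Xx]
    change Cg _ (_ * (yy (2 + r') u K (i + 2 ^ t) * et u K (j + 1) * _))
      (_ * (yy (2 + r') u K i * et u K (j + 1 + 2 ^ t) * _))
    obtain ⟨a, ha⟩ := hT
    obtain ⟨b, hb⟩ := h1
    obtain ⟨c, hc⟩ := hc
    obtain ⟨d, hd⟩ := hp
    rw [mul_pow (2 : R) ((j + 1 : ℕ) : R), mul_pow (2 : R) ((j + 1 + 2 ^ t : ℕ) : R)]
    generalize ((j + 1 : ℕ) : R) ^ (2 + r') = J at *
    generalize ((j + 1 + 2 ^ t : ℕ) : R) ^ (2 + r') = J' at *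
    generalize yy (2 + r') u K (i + 2 ^ t) * et u K (j + 1) = c1 at *
    generalize yy (2 + r') u K i * et u K (j + 1 + 2 ^ t) = c2 at *
    generalize θ (2 * (i + 2 ^ t) + 1) (2 * (j + 1) - 1) = T1 at *
    generalize θ (2 * i + 1) (2 * (j + 1 + 2 ^ t) - 1) = T2 at *
    refine ⟨2 ^ (2 + r') * J * c1 * a + 2 ^ r' * d * c1 * b + 2 ^ (r' + 1) * J' * c * b, ?_⟩
    have e4 : (2 : R) ^ (t + 1 + 2) = 2 ^ (t + 3) := by ring
    rw [e4] at ha
    have e5 : T1 = T2 + 2 ^ (t + 3) * a := by linear_combination ha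
    have e6 : J = J' + 2 ^ t * d := by linear_combination hd
    have e7 : c1 = c2 + 2 ^ (t + 1) * c := by linear_combination hc
    rw [e5, e6, e7, hb]
    ring

lemma Th_V {r : ℕ} (hr : 2 ≤ r) {u K : ℕ → R} {θ : ℕ → ℕ → R} (h : Lev u K θ)
    (h0 : (2 : R) ∣ θ 0 0) (t i j : ℕ) :
    Cg (2 ^ (t + 3)) (Th r u K θ (i + 2 ^ t) j) (Th r u K θ i (j + 2 ^ t)) := by
  have hX := Xx_V hr h h0 t i j
  have e1 : 2 * (j + 2 ^ t) + 1 = 2 * j + 1 + 2 ^ (t + 1) := by ring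
  have e2 : 2 * (i + 2 ^ t) + 1 = 2 * i + 1 + 2 ^ (t + 1) := by ring
  have h1 := h.V (t + 1) (2 * i) (2 * j)
  have h2 := h.V (t + 1) (2 * i) (2 * j + 1)
  have h3 := h.V (t + 1) (2 * i + 1) (2 * j)
  have h4 := V2 h (2 * i) (2 * (j + 2 ^ t))
  rw [← two_mul_pow, ← two_mul_pow] at h1
  rw [← e1, ← two_mul_pow] at h2
  rw [← e2, ← two_mul_pow] at h3
  obtain ⟨κ, ⟨k, hk⟩, hκ⟩ := Y_yy (r := r) h t
  obtain ⟨p, hp⟩ := hκ i
  obtain ⟨q, hq⟩ := hκ j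
  have e3 : i + 2 ^ t + j = i + (j + 2 ^ t) := by ring
  obtain ⟨x, hx⟩ := hX
  obtain ⟨a, ha⟩ := h1
  obtain ⟨b, hb⟩ := h2
  obtain ⟨c, hc⟩ := h3
  obtain ⟨d, hd⟩ := h4
  rw [Xx, Xx] at hx
  rw [Cg, Th, Th, e3]
  have e4 : (2 : R) ^ (t + 1 + 2) = 2 ^ (t + 3) := by ring
  rw [e4] at ha hb hc
  have e5 : (2 : R) ^ (t + 3) = 2 ^ (t + 1) * 4 := by ring
  rw [e5] at hx ha hb hc hp hq ⊢
  generalize yi r u K (i + (j + 2 ^ t)) = w at *
  generalize yy r u K (i + 2 ^ t) = yi' at *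
  generalize yy r u K (j + 2 ^ t) = yj' at *
  generalize yy r u K i = yi0 at *
  generalize yy r u K j = yj0 at *
  generalize θ (2 * (i + 2 ^ t)) (2 * j) = A1 at *
  generalize θ (2 * i) (2 * (j + 2 ^ t)) = A2 at *
  generalize θ (2 * (i + 2 ^ t)) (2 * j + 1) = B1 at *
  generalize θ (2 * i) (2 * (j + 2 ^ t) + 1) = B2 at *
  generalize θ (2 * (i + 2 ^ t) + 1) (2 * j) = C1 at *
  generalize θ (2 * i + 1) (2 * (j + 2 ^ t)) = C2 at *
  refine ⟨a + x + w * (yj0 * b + yi' * c - q * B2 + p * C2 + k * d), ?_⟩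
  linear_combination ha + hx + w * (yj0 * hb + yi' * hc - B2 * hq + C2 * hp) + w * (C2 - B2) * hk +
    w * 2 ^ (t + 1) * k * hd

lemma lev_next {r : ℕ} (hr : 2 ≤ r) {u K : ℕ → R} {θ : ℕ → ℕ → R} (h : Lev u K θ)
    (h0 : (2 : R) ∣ θ 0 0) {θ1 : ℕ → ℕ → R} (hθ : ∀ i j, Th r u K θ i j = 2 * θ1 i j) :
    Lev (u1 r u) (K1 r K) θ1 where
  Ku i := by
    have h1 := h.Ku (2 * i)
    have h2 : (Ai i * A i) ^ r = 1 := by rw [Ai_mul_A, one_pow]
    rw [mul_pow] at h2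
    rw [K1, u1]
    linear_combination (K (2 * i) * u (2 * i)) * h2 + h1
  Hu n := by
    have h1 : H n (fun i => u (2 * i)) := (h.Hu (2 * n)).even le_rfl
    exact h1.mul ((H_Ai n).pow r)
  Q := by
    obtain ⟨ε, hε⟩ := h.Q
    refine ⟨r, fun s i => ?_⟩
    have key : ∀ i, u1 r u (i + 1) * K1 r K i = wn i ^ r *
        ((u (2 * i + 1) * K (2 * i)) * (u (2 * i + 1 + 1) * K (2 * i + 1))) := by
      intro i
      have h1 := h.Ku (2 * i + 1)
      have h2 : (Ai i * A i) ^ r = 1 := by rw [Ai_mul_A, one_pow]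
      rw [mul_pow] at h2
      have e : 2 * (i + 1) = 2 * i + 1 + 1 := by ring
      rw [u1, K1, Ai_succ, e, mul_pow]
      linear_combination (wn i ^ r * u (2 * i + 1 + 1) * K (2 * i)) * h2 -
        (wn i ^ r * u (2 * i + 1 + 1) * K (2 * i)) * h1
    rw [key, key]
    have d1 := (D_wn i s).pow (O_wn _) (O_wn _) r
    have dz : ∀ i, D s 0 (u (i + 1) * K i) (u (i + 2 ^ (s + 1) + 1) * K (i + 2 ^ (s + 1))) := by
      intro i
      have := hε (s + 1) i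
      rw [D] at this ⊢
      obtain ⟨a, ha⟩ := this
      exact ⟨2 * a + ε, by linear_combination ha⟩
    have d2 := dz (2 * i)
    have d3 := dz (2 * i + 1)
    have e1 : 2 * i + 2 ^ (s + 1) = 2 * (i + 2 ^ s) := by ring
    have e2 : 2 * i + 1 + 2 ^ (s + 1) = 2 * (i + 2 ^ s) + 1 := by ring
    rw [e1] at d2
    rw [e2] at d3
    have d23 := D.mul ((h.Ou _).mul (h.OK _)) ((h.Ou _).mul (h.OK _)) d2 d3
    have d := D.mul ((O_wn _).pow r) (((h.Ou _).mul (h.OK _)).mul ((h.Ou _).mul (h.OK _))) d1 d23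
    rw [mul_one, add_zero, add_zero] at d
    exact d
  V t i j := by
    obtain ⟨a, ha⟩ := Th_V hr h h0 t i j
    rw [hθ, hθ] at ha
    refine ⟨a, ?_⟩
    apply mul_left_cancel₀ two_ne
    linear_combination ha
  L t i j := by
    obtain ⟨a, ha⟩ := Th_L (by omega) h t i j (r := r)
    rw [hθ, hθ] at ha
    refine ⟨a, ?_⟩
    apply mul_left_cancel₀ two_ne
    linear_combination ha

theorem level {r : ℕ} (hr : 2 ≤ r) : ∀ (n : ℕ) (u K : ℕ → R) (θ : ℕ → ℕ → R), Lev u K θ →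
    (∀ e, (2 : R) ^ (e + 1) ∣ ∑ k ∈ range (2 ^ e), aa r u K θ k) →
    ∀ e, 2 ^ e ∣ n → 0 < n → (2 : R) ^ (s2 n + e) ∣ ∑ k ∈ range n, aa r u K θ k := by
  intro n
  induction n using Nat.strong_induction_on with
  | _ n ih =>
    intro u K θ h hyp e he hn
    have h0 : (2 : R) ∣ θ 0 0 := by
      have h1 := hyp 0
      simp only [pow_zero, range_one, sum_singleton, zero_add, pow_one, aa, Bf,
        Nat.choose_self, Nat.cast_one, one_pow, Nat.sub_zero, one_mul] at h1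
      have h2 : O (K 0 * (u 0 * u 0)) := (h.OK 0).mul ((h.Ou 0).mul (h.Ou 0))
      have h3 := dvd_of_O_mul (k := 1) h2 (y := θ 0 0) (by
        rw [pow_one]
        obtain ⟨a, ha⟩ := h1
        exact ⟨a, by linear_combination ha⟩)
      rwa [pow_one] at h3
    have pair : ∀ m, ∑ k ∈ range (2 * m), aa r u K θ k =
        ∑ k ∈ range m, aa r (u1 r u) (K1 r K) (Th r u K θ) k := by
      intro m
      induction m with
      | zero => simp
      | succ m ihm =>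
        rw [show 2 * (m + 1) = 2 * m + 1 + 1 by ring, sum_range_succ, sum_range_succ, ihm,
          sum_range_succ _ m, ← c2 (by omega) h m]
        ring
    choose θ1 hθ using fun i j => Th_even (r := r) (by omega) h h0 i j
    have h1 := lev_next hr h h0 hθ
    have half : ∀ k, aa r (u1 r u) (K1 r K) (Th r u K θ) k =
        2 * aa r (u1 r u) (K1 r K) θ1 k := by
      intro k
      rw [aa, aa, Bf_congr (ψ := fun i j => 2 * (u1 r u i * u1 r u j * θ1 i j)), Bf_mul]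
      · ring
      · intro i j _
        rw [hθ]
        ring
    have pair2 : ∀ m, ∑ k ∈ range (2 * m), aa r u K θ k =
        2 * ∑ k ∈ range m, aa r (u1 r u) (K1 r K) θ1 k := by
      intro m
      rw [pair, mul_sum]
      exact sum_congr rfl fun k _ => half k
    have hyp1 : ∀ e, (2 : R) ^ (e + 1) ∣ ∑ k ∈ range (2 ^ e), aa r (u1 r u) (K1 r K) θ1 k := by
      intro e
      have h2 := hyp (e + 1)
      rw [show 2 ^ (e + 1) = 2 * 2 ^ e by ring, pair2] at h2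
      obtain ⟨a, ha⟩ := h2
      refine ⟨a, ?_⟩
      apply mul_left_cancel₀ two_ne
      rw [ha]
      ring
    rcases Nat.even_or_odd' n with ⟨m, rfl | rfl⟩
    · rw [pair2, s2_even]
      rcases e with _ | e
      · have := ih m (by omega) _ _ _ h1 hyp1 0 (one_dvd _) (by omega)
        exact Dvd.dvd.mul_left this _
      · have hd : 2 ^ e ∣ m := by
          rw [pow_succ'] at he
          exact Nat.dvd_of_mul_dvd_mul_left (by norm_num) he
        have := ih m (by omega) _ _ _ h1 hyp1 e hd (by omega)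
        rw [← add_assoc, pow_succ']
        exact mul_dvd_mul_left _ this
    · have e0 : e = 0 := by
        rcases e with _ | e
        · rfl
        · exfalso
          have h3 : 2 ∣ 2 * m + 1 := (dvd_pow_self 2 (by omega)).trans he
          omega
      subst e0
      rw [sum_range_succ, s2_odd, add_zero]
      apply dvd_add
      · rcases Nat.eq_zero_or_pos m with rfl | hm
        · simp
        · rw [pair2, pow_succ']
          have := ih m (by omega) _ _ _ h1 hyp1 0 (one_dvd _) hm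
          rw [add_zero] at this
          exact mul_dvd_mul_left _ this
      · have := c1 (r := r) (by omega) h h0 m
        rwa [s2_even] at this

end Pool.Agent.H16S

end
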